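import Pool.Agent.T2h14.FD.Stm

/-!
Tasks UNIQ and SUR: uniqueness and surjectivity of the evaluation of power series.
-/

set_option autoImplicit false

open MvPowerSeries IsLocalRing
open scoped TensorProduct

namespace Pool.Agent.T2h14.FD

namespace UniqSur

variable {n : ℕ} {k : Type} [Field k]

theorem coeff_X_mul' (i : Fin n) (g : Rn n k) (α : Fin n →₀ ℕ) :
    coeff α (X i * g) = if 1 ≤ α i then coeff (α - Finsupp.single i 1) g else 0 := by
  classical
  have h : (X i : Rn n k) = monomial (Finsupp.single i 1) 1 := rfl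
  rw [h, coeff_monomial_mul, one_mul]
  by_cases h1 : 1 ≤ α i
  · rw [if_pos h1, if_pos (Finsupp.single_le_iff.2 h1)]
  · rw [if_neg h1, if_neg (fun h2 => h1 (Finsupp.single_le_iff.1 h2))]

/-- division by the variables -/
theorem decomp (m : ℕ) (f : Rn n k) (hf : OrdGe (m + 1) f) :
    ∃ g : Fin n → Rn n k, (∀ i, OrdGe m (g i)) ∧ f = ∑ i, X i * g i := by
  classical
  -- the first index in the support
  have hex : ∀ α : Fin n →₀ ℕ, α ≠ 0 → ∃ i, 1 ≤ α i := by
    intro α hα
    by_contra h
    push Not at h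
    apply hα
    ext i
    have := h i
    simp only [Finsupp.coe_zero, Pi.zero_apply]
    omega
  rcases isEmpty_or_nonempty (Fin n) with hemp | hne
  · refine ⟨fun _ => 0, fun i => isEmptyElim i, ?_⟩
    ext α
    have hα : α = 0 := by
      ext i
      exact isEmptyElim i
    subst hα
    rw [hf 0 (by simp)]
    simp
  choose! t ht using hex
  obtain ⟨g, hg⟩ : ∃ g : Fin n → Rn n k, ∀ i β, coeff β (g i) =
      if t (β + Finsupp.single i 1) = i then coeff (β + Finsupp.single i 1) f else 0 :=
    ⟨fun i => fun β => if t (β + Finsupp.single i 1) = i then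
      coeff (β + Finsupp.single i 1) f else 0, fun i β => rfl⟩
  refine ⟨g, ?_, ?_⟩
  · intro i β hβ
    rw [hg]
    have h1 : (β + Finsupp.single i 1).degree < m + 1 := by
      rw [map_add, Finsupp.degree_single]
      omega
    rw [hf _ h1, ite_self]
  · ext α
    rw [map_sum]
    have h1 : ∀ i : Fin n, coeff α (X i * g i) = if 1 ≤ α i ∧ t α = i then coeff α f else 0 := by
      intro i
      rw [coeff_X_mul']
      by_cases h2 : 1 ≤ α i
      · have h3 : α - Finsupp.single i 1 + Finsupp.single i 1 = α :=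
          tsub_add_cancel_of_le (Finsupp.single_le_iff.2 h2)
        rw [if_pos h2, hg, h3]
        by_cases h4 : t α = i
        · rw [if_pos h4, if_pos ⟨h2, h4⟩]
        · rw [if_neg h4, if_neg (fun h5 => h4 h5.2)]
      · rw [if_neg h2, if_neg (fun h5 => h2 h5.1)]
    rw [Finset.sum_congr rfl fun i _ => h1 i]
    by_cases hα : α = 0
    · subst hα
      rw [hf 0 (by simp)]
      simp
    · rw [Finset.sum_eq_single (t α)]
      · rw [if_pos ⟨ht α hα, rfl⟩]
      · intro i _ hi
        rw [if_neg (fun h5 => hi h5.2.symm)]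
      · intro h
        exact absurd (Finset.mem_univ _) h

variable {A : Type} [CommRing A]

theorem ord_mem (I : Ideal A) (E : Rn n k →+* A) (hE : ∀ i, E (X i) ∈ I) (m : ℕ) :
    ∀ f : Rn n k, OrdGe m f → E f ∈ I ^ m := by
  induction m with
  | zero =>
    intro f _
    rw [pow_zero, Ideal.one_eq_top]
    exact Submodule.mem_top
  | succ m ih =>
    intro f hf
    obtain ⟨g, hg, rfl⟩ := decomp m f hf
    rw [map_sum, pow_succ']
    refine Ideal.sum_mem _ fun i _ => ?_
    rw [map_mul]
    exact Ideal.mul_mem_mul (hE i) (ih _ (hg i))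

theorem eq_mem (I : Ideal A) (E E' : Rn n k →+* A) (hE : ∀ i, E (X i) ∈ I)
    (hC : ∀ c, E' (C c) = E (C c)) (hX : ∀ i, E' (X i) = E (X i)) (m : ℕ) :
    ∀ f : Rn n k, E' f - E f ∈ I ^ m := by
  induction m with
  | zero =>
    intro f
    rw [pow_zero, Ideal.one_eq_top]
    exact Submodule.mem_top
  | succ m ih =>
    intro f
    have h1 : OrdGe (0 + 1) (f - C (constantCoeff f)) := by
      intro α hα
      have h2 : α = 0 := by
        rw [zero_add, Nat.lt_one_iff] at hα
        exact (Finsupp.degree_eq_zero_iff α).1 hα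
      subst h2
      simp
    obtain ⟨g, -, hg⟩ := decomp 0 _ h1
    have h2 : f = C (constantCoeff f) + ∑ i, X i * g i := by
      rw [← hg]
      ring
    have h3 : E' f - E f = ∑ i, E (X i) * (E' (g i) - E (g i)) := by
      conv_lhs => rw [h2]
      rw [map_add, map_add, map_sum, map_sum, hC, add_sub_add_left_eq_sub,
        ← Finset.sum_sub_distrib]
      refine Finset.sum_congr rfl fun i _ => ?_
      rw [map_mul, map_mul, hX]
      ring
    rw [h3, pow_succ']
    exact Ideal.sum_mem _ fun i _ => Ideal.mul_mem_mul (hE i) (ih _)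

theorem haus (I : Ideal A) [IsHausdorff I A] (x : A) (h : ∀ m, x ∈ I ^ m) : x = 0 := by
  apply IsHausdorff.haus (I := I) inferInstance
  intro m
  rw [SModEq.zero, smul_eq_mul, Ideal.mul_top]
  exact h m

theorem ord_add {m : ℕ} {f g : Rn n k} (hf : OrdGe m f) (hg : OrdGe m g) : OrdGe m (f + g) := by
  intro α hα
  rw [map_add, hf α hα, hg α hα, add_zero]

theorem ord_sum {ι : Type} (s : Finset ι) {m : ℕ} (f : ι → Rn n k) (hf : ∀ i ∈ s, OrdGe m (f i)) :
    OrdGe m (∑ i ∈ s, f i) := by
  intro α hα
  rw [map_sum]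
  exact Finset.sum_eq_zero fun i hi => hf i hi α hα

theorem ord_X {m : ℕ} (i : Fin n) {f : Rn n k} (hf : OrdGe m f) : OrdGe (m + 1) (X i * f) := by
  intro α hα
  rw [coeff_X_mul']
  by_cases h : 1 ≤ α i
  · rw [if_pos h]
    apply hf
    have h3 : α - Finsupp.single i 1 + Finsupp.single i 1 = α :=
      tsub_add_cancel_of_le (Finsupp.single_le_iff.2 h)
    have h4 : (α - Finsupp.single i 1).degree + 1 = α.degree := by
      conv_rhs => rw [← h3]
      rw [map_add, Finsupp.degree_single]
    omega
  · rw [if_neg h]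

/-- approximation -/
theorem approx (I : Ideal A) (E : Rn n k →+* A) (hI : I = Ideal.span (Set.range fun i => E (X i)))
    (hs : ∀ a : A, ∃ f : Rn n k, a - E f ∈ I) (m : ℕ) :
    ∀ e ∈ I ^ m, ∃ f : Rn n k, OrdGe m f ∧ e - E f ∈ I ^ (m + 1) := by
  induction m with
  | zero =>
    intro e _
    obtain ⟨f, hf⟩ := hs e
    refine ⟨f, fun α hα => absurd hα (Nat.not_lt_zero _), ?_⟩
    rw [zero_add, pow_one]
    exact hf
  | succ m ih =>
    intro e he
    have h1 : e ∈ (I ^ m) • Submodule.span A (Set.range fun i => E (X i)) := by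
      rw [pow_succ] at he
      have h2 : Submodule.span A (Set.range fun i => E (X i)) = I := by
        rw [hI]
      rw [h2, smul_eq_mul]
      exact he
    rw [Submodule.mem_ideal_smul_span_iff_exists_sum] at h1
    obtain ⟨a, ha, hae⟩ := h1
    choose f hf hfe using fun i => ih (a i) (ha i)
    refine ⟨∑ i, X i * f i, ord_sum _ _ fun i _ => ord_X i (hf i), ?_⟩
    have h3 : e - E (∑ i, X i * f i) = ∑ i, E (X i) * (a i - E (f i)) := by
      rw [← hae, Finsupp.sum_fintype _ _ (by simp), map_sum, ← Finset.sum_sub_distrib]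
      refine Finset.sum_congr rfl fun i _ => ?_
      rw [map_mul, smul_eq_mul]
      ring
    rw [h3, pow_succ']
    refine Ideal.sum_mem _ fun i _ => Ideal.mul_mem_mul ?_ (hfe i)
    rw [hI]
    exact Ideal.subset_span ⟨i, rfl⟩

end UniqSur

open UniqSur

theorem t_UNIQ : UNIQ := by
  intro k A _ _ I n E hE
  refine ⟨ord_mem I E hE, ?_⟩
  intro _ E' hC hX
  ext f
  exact sub_eq_zero.1 (haus I _ fun m => eq_mem I E E' hE hC hX m f)

theorem t_SUR : SUR := by
  intro k A _ _ I _ n E hI hs a
  classical
  have hE : ∀ i, E (X i) ∈ I := by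
    intro i
    rw [hI]
    exact Ideal.subset_span ⟨i, rfl⟩
  have hap := approx I E hI hs
  choose! F hF hFe using hap
  -- the remainders
  let rem : ℕ → A := fun m => Nat.rec a (fun m x => x - E (F m x)) m
  have hrem : ∀ m, rem m ∈ I ^ m := by
    intro m
    induction m with
    | zero =>
      rw [pow_zero, Ideal.one_eq_top]
      exact Submodule.mem_top
    | succ m ih => exact hFe m (rem m) ih
  let f : ℕ → Rn n k := fun m => F m (rem m)
  have hf : ∀ m, OrdGe m (f m) := fun m => hF m (rem m) (hrem m)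
  have hpart : ∀ m, a - E (∑ j ∈ Finset.range m, f j) = rem m := by
    intro m
    induction m with
    | zero =>
      rw [Finset.range_zero, Finset.sum_empty, map_zero, sub_zero]
      rfl
    | succ m ih =>
      rw [Finset.sum_range_succ, map_add, ← sub_sub, ih]
  let G : Rn n k := fun α => ∑ j ∈ Finset.range (α.degree + 1), coeff α (f j)
  have hG : ∀ m, OrdGe m (G - ∑ j ∈ Finset.range m, f j) := by
    intro m α hα
    rw [map_sub, map_sum, sub_eq_zero]
    show ∑ j ∈ Finset.range (α.degree + 1), coeff α (f j) = _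
    apply Finset.sum_subset
    · intro j hj
      rw [Finset.mem_range] at hj ⊢
      omega
    · intro j _ hj
      rw [Finset.mem_range] at hj
      exact hf j α (by omega)
  refine ⟨G, ?_⟩
  apply sub_eq_zero.1
  apply haus I
  intro m
  have h1 : E G - a = E (G - ∑ j ∈ Finset.range m, f j) - rem m := by
    rw [← hpart m, map_sub]
    ring
  rw [h1]
  exact Ideal.sub_mem _ (ord_mem I E hE m _ (hG m)) (hrem m)

end Pool.Agent.T2h14.FD
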